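import Pool.Agent.helper66.SL.SpecB

/-!
# sl:LGD: the localization of a simple simplicial oriented matroid is simple and simplicial
-/

set_option autoImplicit false

namespace Pool.Agent.helper66.SL

open Pool.Agent.helper52.FC

/-- Covectors of the localization below `T` come from covectors of `L` between `X` and `T`. -/
theorem LGD_lift {E : Type} {L : Set (E → SignType)} (hL : IsOM L) {X T : E → SignType} (hX : X ∈ L)
    (hXT : Le X T) {T' Y' : {e : E // X e = 0} → SignType} (hT' : ∀ e, T' e = T e.1) (hY : Y' ∈ Loc L X)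
    (hYT : Le Y' T') : ∃ Y ∈ L, Le X Y ∧ Le Y T ∧ ∀ e : {e : E // X e = 0}, Y' e = Y e.1 := by
  obtain ⟨Y0, hY0, hr⟩ := hY
  refine ⟨cmp X Y0, hL.comp X hX Y0 hY0, le_cmp X Y0, ?_, ?_⟩
  · intro e
    by_cases he : X e = 0
    · rw [cmp_pos he]
      have h1 := hYT ⟨e, he⟩
      have h2 := hr ⟨e, he⟩
      have h3 := hT' ⟨e, he⟩
      rw [h2, h3] at h1
      exact h1
    · rw [cmp_neg he]
      exact hXT e
  · intro e
    rw [cmp_pos e.2]
    exact hr e

theorem LGD_antisymm {F : Type} {X Y : F → SignType} (h : Le X Y) (h' : Le Y X) : X = Y := by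
  funext e
  rcases h e with h1 | h1
  · rcases h' e with h2 | h2
    · rw [h1, h2]
    · exact h2.symm
  · exact h1

theorem LGD_simple {E : Type} {L : Set (E → SignType)} (hs : IsSimple L) (X : E → SignType) :
    IsSimple (Loc L X) := by
  refine ⟨?_, ?_, ?_⟩
  · intro e
    obtain ⟨Y, hY, hYe⟩ := hs.loop e.1
    exact ⟨fun g => Y g.1, ⟨Y, hY, fun _ => rfl⟩, hYe⟩
  · intro e f hef
    obtain ⟨Y, hY, hYe⟩ := hs.par e.1 f.1 fun h => hef (Subtype.ext h)
    exact ⟨fun g => Y g.1, ⟨Y, hY, fun _ => rfl⟩, hYe⟩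
  · intro e f hef
    obtain ⟨Y, hY, hYe⟩ := hs.anti e.1 f.1 fun h => hef (Subtype.ext h)
    exact ⟨fun g => Y g.1, ⟨Y, hY, fun _ => rfl⟩, hYe⟩

theorem LGD_proof (hBIJ : BIJ) (hLTP : LTP) : LGD := by
  intro E _ L hG X hX
  refine ⟨restr_om hG.om _, LGD_simple hG.simple X, ?_⟩
  intro T' hT'
  obtain ⟨T, hT, hXT, hr⟩ := (hLTP E L hG.om hG.simple X hX T').1 hT'
  obtain ⟨hB1, hB2⟩ := hBIJ E L hG T hT
  have hlift := fun (Y' : {e : E // X e = 0} → SignType) (h1 : Y' ∈ Loc L X) (h2 : Le Y' T') =>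
    LGD_lift hG.om hX hXT hr h1 h2
  -- the order in terms of the zeros on the walls
  have hord : ∀ Y1 Y2 : {e : E // X e = 0} → SignType, Y1 ∈ Loc L X → Le Y1 T' → Y2 ∈ Loc L X → Le Y2 T' →
      (Le Y1 Y2 ↔ ∀ e : {e : E // X e = 0}, Wall L T e.1 → Y1 e ≠ 0 → Y2 e ≠ 0) := by
    intro Y1 Y2 h1 h1' h2 h2'
    constructor
    · intro hle e _ hne h0
      rcases hle e with h3 | h3
      · exact hne h3
      · exact hne (h3.trans h0)
    · intro h
      obtain ⟨Z1, hZ1, hXZ1, hZ1T, hr1⟩ := hlift Y1 h1 h1'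
      obtain ⟨Z2, hZ2, hXZ2, hZ2T, hr2⟩ := hlift Y2 h2 h2'
      have h3 : Le Z1 Z2 := by
        apply hB2 Z1 hZ1 Z2 hZ2 hZ1T hZ2T
        intro e he h0
        by_cases hXe : X e = 0
        · by_contra hne
          have h4 := h ⟨e, hXe⟩ he (by rw [hr1]; exact hne)
          rw [hr2] at h4
          exact h4 h0
        · exfalso
          rcases hXZ2 e with h4 | h4
          · exact hXe h4
          · exact hXe (h4.trans h0)
      intro e
      rw [hr1, hr2]
      exact h3 e.1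
  -- the bijection
  let J : Type := {e : {e : E // X e = 0} // Wall L T e.1}
  let φ0 : {Y' : {e : E // X e = 0} → SignType // Y' ∈ Loc L X ∧ Le Y' T'} → Set J :=
    fun Y' => {e : J | Y'.1 e.1 ≠ 0}
  have hφ : ∀ Y1 Y2 : {Y' : {e : E // X e = 0} → SignType // Y' ∈ Loc L X ∧ Le Y' T'},
      Le Y1.1 Y2.1 ↔ φ0 Y1 ⊆ φ0 Y2 := by
    intro Y1 Y2
    rw [hord Y1.1 Y2.1 Y1.2.1 Y1.2.2 Y2.2.1 Y2.2.2]
    constructor
    · intro h e he
      exact h e.1 e.2 he
    · intro h e he hne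
      exact h (a := (⟨e, he⟩ : J)) hne
  have hbij : Function.Bijective φ0 := by
    constructor
    · intro Y1 Y2 h
      apply Subtype.ext
      apply LGD_antisymm
      · exact (hφ Y1 Y2).2 h.subset
      · exact (hφ Y2 Y1).2 h.symm.subset
    · intro K
      obtain ⟨Y, hY, hYT, hYw⟩ := hB1 {e | ∃ h : X e = 0, ∃ h' : Wall L T e, (⟨⟨e, h⟩, h'⟩ : J) ∉ K}
        (fun e he => he.2.1)
      refine ⟨⟨fun g => Y g.1, ⟨Y, hY, fun _ => rfl⟩, ?_⟩, ?_⟩
      · intro e
        rw [hr]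
        exact hYT e.1
      · ext e
        show Y e.1.1 ≠ 0 ↔ e ∈ K
        have h1 := hYw e.1.1 e.2
        constructor
        · intro h2
          by_contra h3
          exact h2 (h1.2 ⟨e.1.2, e.2, h3⟩)
        · intro h2 h3
          obtain ⟨_, _, h4⟩ := h1.1 h3
          exact h4 h2
  have hfin : Finite J := inferInstance
  refine ⟨Nat.card J, (Equiv.ofBijective φ0 hbij).trans (Equiv.Set.congr (Finite.equivFin J)), ?_⟩
  intro Y1 Y2
  rw [hφ Y1 Y2]
  show φ0 Y1 ⊆ φ0 Y2 ↔ (Finite.equivFin J) '' (φ0 Y1) ⊆ (Finite.equivFin J) '' (φ0 Y2)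
  exact (Set.image_subset_image_iff (Finite.equivFin J).injective).symm

end Pool.Agent.helper66.SL
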